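import Pool.Agent.D0H5.CS.Thin
import Pool.Agent.Results.MP_03df5c_nt.MultiplicativeValues

/-!
# MP_03df5c_nt: relations between real and `p`-adic multiple zeta values at the values of compositions of arithmetic functions

The notation is that of `MultiplicativeValues`. Let `F_1, ..., F_k` be arbitrary compositions of functions of the class `LM`
(positive multiplicative functions of at most polynomial growth with `f p ≤ M p` for the large primes `p` and different values
at different large primes), for example the iterates of Euler's function, or `φ(σ(φ(m)))`.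

Theorem. (1) Let `0 ≤ θ`, `k θ < 1`. For all large `N`, all but `N ^ k / (log N) ^ U` of the `m ∈ [1, N] ^ k` are good: no
tuple `s` near the tuple of the values, `|s_i - F_i(m_i)| ≤ F_i(m_i) ^ θ`, in a cone `T ≤ s_i ≤ κ T`, is bad for the degree
`D` and the height `C ^ T` for any family `Z` with the stuffle product for which the relations between the real multiple zeta
values of the constant fronts of the patterns hold; if the fronts are even, for any family with `Z(2 m) = 0`, `m ≥ 1`, so
unconditionally and for all primes `p` at once.

(2) Conversely, let `Z` be a family in a domain, with `Z(s) ≠ 0` for all large odd `s`. The following are equivalent: (a) all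
polynomial relations between real multiple zeta values hold for `Z` (the question for `p`); (b) the conclusion of (1) holds
for `Z`, for all patterns and all compositions; (c) for ANY fixed number `t`: for all patterns in one variable with exactly one
letter which is not constant, for all but at most `N / log N` of the `m ≤ N` the relations of degree one with integer
coefficients at most `2 ^ s` hold for `Z` for all `s` with `|s - v| ≤ v ^ (1/2)`, where `v` is the `t`-fold iterate
`φ(φ(...φ(m)...))`.

For one function `f` of the class `LM` instead of a composition this is `MultiplicativeValues` (helper760). The tool for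
compositions is `Pool.Agent.D0H71.CM`.
-/

set_option autoImplicit false

namespace Pool.Agent.Results.MP_03df5c_nt.CompositionValues

open Pool.Agent.N733.TG (LM lm_totient lm_sigma)
open Pool.Agent.D0H71.CM (Comp)
open Pool.Agent.D0H5.CS (ThinNear thin_of_count odd_of_thin comp_comp comp_iter)
open AlmostAllArguments (mzv Letter index AdmissiblePattern fronts EvenFront OneLarge HasStuffle Transfers Bad BadFor Few
  part1 part2 c_to_a OneLargeArgument)
open MultiplicativeValues (bad_mono badFor_mono bad_of_linear)

/-- statement (b): for all patterns in `k ≥ 1` variables and all compositions `F_i` of functions with `LM`, the tuples near the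
tuples of the values of the `F_i` are not bad for `Z`, up to a thin set -/
def AllCompositions {A : Type} [CommRing A] (Z : List ℕ → A) : Prop :=
  ∀ (k r : ℕ), 1 ≤ k → ∀ w : Fin r → List (Letter k), (∀ i, AdmissiblePattern (w i)) → ∀ (D κ : ℕ) (C : ℝ)
    (F : Fin k → ℕ → ℕ), (∀ i, Comp (F i)) → ∀ θ : ℝ, 0 ≤ θ → k * θ < 1 → ∀ U : ℕ,
    ThinNear κ C F θ U (fun H s => Bad w D H Z s)

/-- statement (c): the same for the patterns in one variable with exactly one letter which is not constant, `s + b`, the
`t`-fold iterate of Euler's function, relations of degree one, `κ = 1`, `C = 2`, `θ = 1 / 2` and `U = 1` -/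
def NearIterates (t : ℕ) {A : Type} [CommRing A] (Z : List ℕ → A) : Prop :=
  ∀ (r : ℕ) (w : Fin r → List (Letter 1)), (∀ i, AdmissiblePattern (w i) ∧ OneLarge (w i)) →
    ThinNear 1 2 (fun _ => Nat.totient^[t]) (1 / 2) 1 (fun H s => Bad w 1 H Z s)

lemma all_of_transfers {A : Type} [CommRing A] [Algebra ℚ A] (Z : List ℕ → A) (hZ : HasStuffle Z)
    (h : Transfers Set.univ Z) : AllCompositions Z := by
  intro k r hk w hw D κ C F hF θ hθ hθk U
  exact thin_of_count hk κ C hF hθ hθk U (fun H H' s => bad_mono w D Z H H' s)
    (AlmostAllArguments.a_to_b Z hZ h k r w hw D (2 * κ))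

lemma near_of_all {A : Type} [CommRing A] (Z : List ℕ → A) (h : AllCompositions Z) (t : ℕ) : NearIterates t Z := by
  intro r w hw
  exact h 1 r le_rfl w (fun i => (hw i).1) 1 1 2 (fun _ => Nat.totient^[t]) (fun _ => comp_iter lm_totient t) (1 / 2)
    (by norm_num) (by norm_num) 1

lemma large_of_near {A : Type} [CommRing A] (Z : List ℕ → A) {t : ℕ} (h : NearIterates t Z) : OneLargeArgument Z := by
  intro r w hw B s₁
  obtain ⟨s, h1, h2, h3⟩ := odd_of_thin (h r w hw) (s₁ + B)
  refine ⟨s, by omega, h2, fun a ha hR => ?_⟩
  by_contra hA
  refine h3 (bad_of_linear w Z (fun _ => s) B _ ?_ a ha hR hA)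
  have h4 : B ≤ 2 ^ s := by
    have h5 : s < 2 ^ s := Nat.lt_two_pow_self
    omega
  exact_mod_cast h4

/-- **Theorem.** (1) Let `w_1, ..., w_r` be admissible patterns in `k ≥ 1` variables, `D`, `κ` natural numbers, `C` a real
number, `F_1, ..., F_k` compositions of functions with `LM`, `θ ≥ 0`, `k θ < 1`, and `U` a natural number. For all large `N`,
for all but `N ^ k / (log N) ^ U` of the `m ∈ [1, N] ^ k`, no tuple `s` with `|s_i - F_i(m_i)| ≤ F_i(m_i) ^ θ` and
`T ≤ s_i ≤ κ T` is bad, for the degree `D` and the height `C ^ T`, for a family `Z` with the stuffle product for which the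
relations between the real multiple zeta values of the fronts hold; if the fronts are even, for a family with `Z(2 m) = 0`
for all `m ≥ 1`. (2) For a family `Z` with the stuffle product in a domain, with `Z(s) ≠ 0` for all large odd `s`, the
following are equivalent: all polynomial relations between real multiple zeta values hold for `Z`; `AllCompositions Z`;
`NearIterates t Z`, for any fixed `t`. (3) Euler's function and the sum of the divisors satisfy `LM`; the iterates of a function
with `LM` and the compositions of compositions are compositions. -/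
theorem result :
    (∀ (k r : ℕ), 1 ≤ k → ∀ w : Fin r → List (Letter k), (∀ i, AdmissiblePattern (w i)) → ∀ (D κ : ℕ) (C : ℝ)
      (F : Fin k → ℕ → ℕ), (∀ i, Comp (F i)) → ∀ θ : ℝ, 0 ≤ θ → k * θ < 1 → ∀ U : ℕ,
      ThinNear κ C F θ U (BadFor w D fun _ _ _ Z => Transfers (fronts w) Z) ∧
      ((∀ i, EvenFront (w i)) → ThinNear κ C F θ U (BadFor w D fun _ _ _ Z => ∀ m, 1 ≤ m → Z [2 * m] = 0))) ∧
    (∀ (A : Type) [CommRing A] [IsDomain A] [Algebra ℚ A] (Z : List ℕ → A), HasStuffle Z →
      (∃ s₀, ∀ s, s₀ ≤ s → Odd s → Z [s] ≠ 0) →
      (Transfers Set.univ Z ↔ AllCompositions Z) ∧ ∀ t : ℕ, (AllCompositions Z ↔ NearIterates t Z)) ∧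
    (LM Nat.totient ∧ LM (fun m => ∑ d ∈ m.divisors, d)) ∧
    (∀ f : ℕ → ℕ, LM f → ∀ t : ℕ, Comp (f^[t])) ∧
    (∀ F G : ℕ → ℕ, Comp F → Comp G → Comp (fun m => F (G m))) := by
  refine ⟨fun k r hk w hw D κ C F hF θ hθ hθk U => ⟨?_, fun he => ?_⟩, ?_, ⟨lm_totient, lm_sigma⟩,
    fun f hf t => comp_iter hf t, fun F G hF hG => comp_comp hF hG⟩
  · exact thin_of_count hk κ C hF hθ hθk U (fun H H' s => badFor_mono w D _ H H' s) (part1 w hw D (2 * κ))
  · exact thin_of_count hk κ C hF hθ hθk U (fun H H' s => badFor_mono w D _ H H' s) (part2 w hw he D (2 * κ))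
  · intro A _ _ _ Z hZ hs
    obtain ⟨s₀, hne⟩ := hs
    have hback : ∀ t, NearIterates t Z → Transfers Set.univ Z := fun t h => c_to_a Z hZ s₀ hne (large_of_near Z h)
    exact ⟨⟨all_of_transfers Z hZ, fun h => hback 0 (near_of_all Z h 0)⟩,
      fun t => ⟨fun h => near_of_all Z h t, fun h => all_of_transfers Z hZ (hback t h)⟩⟩

end Pool.Agent.Results.MP_03df5c_nt.CompositionValues
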