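import Pool.Agent.D0H54.PV.Near
import Pool.Agent.Results.MP_03df5c_nt.MultiplicativeValues

/-!
# MP_03df5c_nt: relations between real and `p`-adic multiple zeta values near the values of a multiplicative function, for all
arguments but as many as one value can have

The notation is that of `AlmostAllArguments`. A pattern in one variable is a nonempty list of letters `b + u s`; at a natural
number `s` it gives an index, such as `ζ(5, 1, s, 3, 2 s + 1)`. A family `Z` is a function from the indices to a commutative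
`ℚ`-algebra with the stuffle product, for example the `p`-adic multiple zeta values for a prime `p`. The number `s` is bad
for `Z` (and `D`, `C`) if a polynomial relation of degree at most `D` with integer coefficients at most `C ^ s` between the
real multiple zeta values of the patterns at `s` fails for `Z`.

Let `f` be a function of the class `LM`: multiplicative and positive, of at most polynomial growth, with `f p ≤ M p` for the
large primes `p` and different values at different large primes, for example Euler's function or the sum of the divisors.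
Let `R(N) = log N logloglog N / loglog N`, and let `c, c₂ ≥ 0` with `c + c₂ < 1`.

Theorem. (1) For all large `N` and all `u ≤ N` but at most `N exp (- c R(N))` NO number `s` with `|s - f(u)| ≤ exp (c₂ R(N))`
is bad for the degree `D` and `C`, for all families `Z` at once for which all the relations between the real multiple zeta
values of the (finitely many) constant fronts of the patterns hold; if the fronts are even (`2a, ..., 2a`, or empty), for all
families with `Z(2 m) = 0`, `m ≥ 1`, unconditionally: for all primes `p` at once.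

(2) Conversely, let `Z` be a family in a domain, with `Z(s) ≠ 0` for all large odd `s` (this holds for the `p`-adic multiple
zeta values). Then the following are equivalent: (a) all polynomial relations between real multiple zeta values hold for `Z`
(the question for `p`); (b) the conclusion of (1) holds for `Z`, for all patterns, `D`, `C`, `f`, `c` and `c₂`; (c) for all
patterns in one variable with exactly one letter which is not constant, `s + b`, there are arbitrarily large `N` such that for
all but at most `N / log N` of the `u ≤ N` the relations of degree one with integer coefficients at most `2 ^ s` hold for `Z`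
for the three numbers `s` with `|s - φ(u)| ≤ 1`.

The starting theorem `MultiplicativeValues` and the theorem `CompositionValues` have the bound `N / (log N) ^ U` for the
number of the exceptional `u` (for larger neighbourhoods, several variables, and compositions). The bound
`N exp (- c R(N))`, `c < 1`, is the size of the largest fibres of Euler's function which one expects (Pomerance: at most
`N exp (- (1 + o(1)) R(N))` elements, and it is conjectured that this is attained), so one bad `s` alone can have as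
many exceptional `u`, and (1) cannot be improved without a proof that there are no bad `s` at all.

The proof: the number of the bad `s` in `[N, 2 N]` is bounded (`AlmostAllArguments`), and the multiplicity of a value of a
multiplicative function of the class is bounded by Rankin's method (`D0H54/PV`).
-/

set_option autoImplicit false

namespace Pool.Agent.Results.MP_03df5c_nt.LargestFibres

open Pool.Agent.N733.TG (LM lm_totient lm_sigma)
open AlmostAllArguments (mzv Letter index AdmissiblePattern fronts EvenFront OneLarge HasStuffle Transfers Bad BadFor Few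
  part1 part2 c_to_a OneLargeArgument)
open MultiplicativeValues (pow_bound bad_mono badFor_mono bad_of_linear)

/-- `R(N) = log N logloglog N / loglog N` -/
noncomputable def R (N : ℝ) : ℝ := Real.log N * Real.log (Real.log (Real.log N)) / Real.log (Real.log N)

/-- For all large `N`, for all `u ≤ N` but at most `N exp (- c R(N))` the property `E (C ^ s)` fails for ALL `s` with
`|s - f(u)| ≤ exp (c₂ R(N))`. -/
def SparseNear (C : ℝ) (f : ℕ → ℕ) (c c₂ : ℝ) (E : ℝ → (Fin 1 → ℕ) → Prop) : Prop :=
  ∃ N₀ : ℕ, ∀ N : ℕ, N₀ ≤ N →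
    ({u : ℕ | 1 ≤ u ∧ u ≤ N ∧ ∃ s : ℕ, |(s : ℝ) - f u| ≤ Real.exp (c₂ * R N) ∧ E (C ^ s) (fun _ => s)}.ncard : ℝ) ≤
      N * Real.exp (-(c * R N))

/-- statement (b): for all patterns in one variable, all `D`, `C`, all `f` with `LM` and all `c, c₂ ≥ 0` with `c + c₂ < 1` -/
def AllFunctions {A : Type} [CommRing A] (Z : List ℕ → A) : Prop :=
  ∀ (r : ℕ) (w : Fin r → List (Letter 1)), (∀ i, AdmissiblePattern (w i)) → ∀ (D : ℕ) (C : ℝ) (f : ℕ → ℕ), LM f →
    ∀ c c₂ : ℝ, 0 ≤ c → 0 ≤ c₂ → c + c₂ < 1 → SparseNear C f c c₂ (fun H s => Bad w D H Z s)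

/-- statement (c): for all patterns in one variable with exactly one letter which is not constant, `s + b`, there are
arbitrarily large `N` such that for all but `N / log N` of the `u ≤ N` the numbers `s` with `|s - φ(u)| ≤ 1` are not bad for
the degree one and `C = 2` -/
def SomeScales {A : Type} [CommRing A] (Z : List ℕ → A) : Prop :=
  ∀ (r : ℕ) (w : Fin r → List (Letter 1)), (∀ i, AdmissiblePattern (w i) ∧ OneLarge (w i)) → ∀ N₀ : ℕ, ∃ N : ℕ, N₀ ≤ N ∧
    ({u : ℕ | 1 ≤ u ∧ u ≤ N ∧ ∃ s : ℕ, |(s : ℝ) - Nat.totient u| ≤ 1 ∧ Bad w 1 (2 ^ s) Z (fun _ => s)}.ncard : ℝ) ≤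
      N / Real.log N

lemma sparse_of_few (C : ℝ) {f : ℕ → ℕ} (hf : LM f) {c c₂ : ℝ} (hc : 0 ≤ c) (hc₂ : 0 ≤ c₂) (hcc : c + c₂ < 1)
    {E : ℝ → (Fin 1 → ℕ) → Prop} (hE : ∀ H H' s, H ≤ H' → E H s → E H' s) (h : Few 2 E) : SparseNear C f c c₂ E := by
  obtain ⟨K, hK⟩ := h
  obtain ⟨N₁, hN₁⟩ := hK ((max |C| 1) ^ 2)
  obtain ⟨K', hK'0, hK'⟩ := Pool.Agent.D0H54.PV.log_count {s : ℕ | E (C ^ s) (fun _ => s)} K N₁ (fun N hN => by
    have h1 := hN₁ N hN
    rw [Nat.sub_self, pow_zero, mul_one] at h1
    refine le_trans ?_ h1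
    have hfin : {s : Fin 1 → ℕ | (∀ j, N ≤ s j ∧ s j ≤ 2 * N) ∧ E (((max |C| 1) ^ 2) ^ N) s}.Finite := by
      refine (Set.Finite.pi' (t := fun _ : Fin 1 => Set.Icc N (2 * N)) fun _ => Set.finite_Icc _ _).subset ?_
      intro s hs j
      exact ⟨(hs.1 j).1, (hs.1 j).2⟩
    have hinj : Function.Injective (fun (s : ℕ) (_ : Fin 1) => s) := fun a b hab => congrFun hab 0
    rw [← Set.ncard_image_of_injective _ hinj]
    apply Set.ncard_le_ncard _ hfin
    rintro _ ⟨s, ⟨h2, h3, h4⟩, rfl⟩
    exact ⟨fun _ => ⟨h2, h3⟩, hE _ _ _ (pow_bound C h3) h4⟩)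
  obtain ⟨N₀, hN₀⟩ := Pool.Agent.D0H54.PV.near_pop hf hc hc₂ hcc {s : ℕ | E (C ^ s) (fun _ => s)} K' hK'0 hK'
  refine ⟨N₀, fun N hN => le_trans (le_of_eq ?_) (hN₀ N hN)⟩
  congr 2
  ext u
  constructor
  · rintro ⟨h1, h2, s, h3, h4⟩
    exact ⟨h1, h2, s, h4, h3⟩
  · rintro ⟨h1, h2, s, h3, h4⟩
    exact ⟨h1, h2, s, h4, h3⟩

lemma all_of_transfers {A : Type} [CommRing A] [Algebra ℚ A] (Z : List ℕ → A) (hZ : HasStuffle Z)
    (h : Transfers Set.univ Z) : AllFunctions Z := by
  intro r w hw D C f hf c c₂ hc hc₂ hcc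
  exact sparse_of_few C hf hc hc₂ hcc (fun H H' s => bad_mono w D Z H H' s)
    (AlmostAllArguments.a_to_b Z hZ h 1 r w hw D 2)

lemma some_of_all {A : Type} [CommRing A] (Z : List ℕ → A) (h : AllFunctions Z) : SomeScales Z := by
  intro r w hw N₀
  obtain ⟨N₁, hN₁⟩ := h r w (fun i => (hw i).1) 1 2 Nat.totient lm_totient (1 / 2) 0 (by norm_num) le_rfl (by norm_num)
  have hlog : Filter.Tendsto (fun N : ℕ => Real.log (Real.log (N : ℝ))) Filter.atTop Filter.atTop :=
    Real.tendsto_log_atTop.comp (Real.tendsto_log_atTop.comp tendsto_natCast_atTop_atTop)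
  obtain ⟨N₂, hN₂⟩ := Filter.eventually_atTop.1
    (hlog.eventually (Pool.Agent.D0H54.PV.eventually_y2 (show (0 : ℝ) < 1 / 2 by norm_num) 0 1 0))
  obtain ⟨N, hN⟩ : ∃ N : ℕ, N = N₀ + N₁ + N₂ + 3 := ⟨_, rfl⟩
  refine ⟨N, by omega, ?_⟩
  have h1 := hN₁ N (by omega)
  rw [zero_mul, Real.exp_zero] at h1
  refine h1.trans ?_
  obtain ⟨y1, y2, y3, y4⟩ := hN₂ N (by omega)
  have hN0 : (0 : ℝ) < N := by
    have : 0 < N := by omega
    exact_mod_cast this
  obtain ⟨y, hy⟩ : ∃ y : ℝ, y = Real.log (Real.log N) := ⟨_, rfl⟩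
  have hL0 : 0 < Real.log N := by
    by_contra hneg
    have h0 : 0 ≤ Real.log N := Real.log_natCast_nonneg N
    have h2 : Real.log N = 0 := by linarith
    rw [h2, Real.log_zero] at y1
    linarith
  rw [← hy] at y1 y2 y3 y4
  have hLy : Real.log N = Real.exp y := by rw [hy, Real.exp_log hL0]
  have h3 : Real.exp (-(1 / 2 * R N)) ≤ Real.exp (-y) := by
    apply Real.exp_le_exp.2
    unfold R
    rw [← hy, hLy]
    push_cast at y4
    linarith
  rw [div_eq_mul_inv]
  apply mul_le_mul_of_nonneg_left _ hN0.le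
  refine h3.trans (le_of_eq ?_)
  rw [Real.exp_neg, hLy]

lemma large_of_some {A : Type} [CommRing A] (Z : List ℕ → A) (h : SomeScales Z) : OneLargeArgument Z := by
  classical
  intro r w hw B s₁
  by_contra hcon
  push Not at hcon
  obtain ⟨q, hq, hqp⟩ := Nat.exists_infinite_primes (s₁ + B + 3)
  obtain ⟨M, hM⟩ := ((Real.tendsto_log_atTop.comp tendsto_natCast_atTop_atTop).eventually_gt_atTop
    ((2 * q : ℕ) : ℝ)).exists_forall_of_atTop
  obtain ⟨N, hN, h1⟩ := h r w hw (M + 2 * q)
  have hq3 : 3 ≤ q := by omega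
  have hlog : ((2 * q : ℕ) : ℝ) < Real.log (N : ℝ) := hM N (by omega)
  have hq0 : (0 : ℝ) < q := by exact_mod_cast (by omega : 0 < q)
  obtain ⟨L, hL⟩ : ∃ L : ℕ, L = N / q := ⟨_, rfl⟩
  have hLq : q * L ≤ N := by
    rw [hL]
    exact Nat.mul_div_le N q
  have hNL : N < q * (L + 1) := by
    rw [hL]
    exact Nat.lt_mul_div_succ N (by omega)
  have hL2 : 1 ≤ L := by
    rw [hL]
    exact (Nat.one_le_div_iff (by omega)).2 (by omega)
  set S : Set ℕ := {u : ℕ | 1 ≤ u ∧ u ≤ N ∧ ∃ s : ℕ, |(s : ℝ) - Nat.totient u| ≤ 1 ∧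
    Bad w 1 (2 ^ s) Z (fun _ => s)} with hS
  let f : ℕ → ℕ := fun j => q * (j + 1)
  have hf : Function.Injective f := by
    intro i j hij
    have h2 : q * (i + 1) = q * (j + 1) := hij
    have := Nat.eq_of_mul_eq_mul_left (by omega : 0 < q) h2
    omega
  have h2 : f '' ((Finset.range L : Finset ℕ) : Set ℕ) ⊆ S := by
    rintro m ⟨j, hj, rfl⟩
    rw [Finset.mem_coe, Finset.mem_range] at hj
    have hm : 2 < q * (j + 1) := by nlinarith
    have hdvd : q.totient ∣ (q * (j + 1)).totient := Nat.totient_dvd_of_dvd (dvd_mul_right _ _)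
    have hpos : 0 < (q * (j + 1)).totient := Nat.totient_pos.2 (by omega)
    have hle : q - 1 ≤ (q * (j + 1)).totient := by
      rw [← Nat.totient_prime hqp]
      exact Nat.le_of_dvd hpos hdvd
    have heven : Even (q * (j + 1)).totient := Nat.totient_even hm
    obtain ⟨v, hv⟩ : ∃ v, v = (q * (j + 1)).totient := ⟨_, rfl⟩
    rw [← hv] at hle hpos heven
    obtain ⟨a, ha, hR, hA⟩ := hcon (v + 1) (by omega) heven.add_one
    refine ⟨?_, (Nat.mul_le_mul_left q (by omega)).trans hLq, v + 1, ?_,
      bad_of_linear w Z (fun _ => v + 1) B _ ?_ a ha hR hA⟩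
    · change 1 ≤ q * (j + 1)
      omega
    · change |((v + 1 : ℕ) : ℝ) - ((q * (j + 1)).totient : ℝ)| ≤ 1
      rw [← hv]
      have h3 : ((v + 1 : ℕ) : ℝ) - (v : ℝ) = 1 := by push_cast; ring
      rw [h3, abs_one]
    · have h4 : B ≤ 2 ^ (v + 1) := by
        have h5 : v + 1 < 2 ^ (v + 1) := Nat.lt_two_pow_self
        omega
      exact_mod_cast h4
  have hfin : S.Finite := (Set.finite_Icc 1 N).subset fun u hu => ⟨hu.1, hu.2.1⟩
  have h3 := Set.ncard_le_ncard h2 hfin
  rw [Set.ncard_image_of_injective _ hf, Set.ncard_coe_finset, Finset.card_range] at h3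
  have h4 : (L : ℝ) ≤ (N : ℝ) / Real.log N := le_trans (by exact_mod_cast h3) h1
  have h2q : (0 : ℝ) < ((2 * q : ℕ) : ℝ) := by
    push_cast
    linarith
  rw [le_div_iff₀ (h2q.trans hlog)] at h4
  have h5 : (N : ℝ) < q * (L + 1) := by exact_mod_cast hNL
  have hL0 : (1 : ℝ) ≤ L := by exact_mod_cast hL2
  push_cast at hlog
  nlinarith

/-- **Theorem.** (1) Let `w_1, ..., w_r` be admissible patterns in one variable, `D` a natural number, `C` a real number, `f` a
function with `LM`, and `c, c₂ ≥ 0` with `c + c₂ < 1`. For all large `N`, for all `u ≤ N` but at most `N exp (- c R(N))`, no `s`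
with `|s - f(u)| ≤ exp (c₂ R(N))` is bad, for the degree `D` and the height `C ^ s`, for a family `Z` with the stuffle product
for which the relations between the real multiple zeta values of the fronts hold; if the fronts are even, for a family with
`Z(2 m) = 0` for all `m ≥ 1`. (2) For a family `Z` with the stuffle product in a domain, with `Z(s) ≠ 0` for all large odd `s`,
the following are equivalent: all polynomial relations between real multiple zeta values hold for `Z`; `AllFunctions Z`;
`SomeScales Z`. (3) Euler's function and the sum of the divisors satisfy `LM`. -/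
theorem result :
    (∀ (r : ℕ) (w : Fin r → List (Letter 1)), (∀ i, AdmissiblePattern (w i)) → ∀ (D : ℕ) (C : ℝ) (f : ℕ → ℕ), LM f →
      ∀ c c₂ : ℝ, 0 ≤ c → 0 ≤ c₂ → c + c₂ < 1 →
      SparseNear C f c c₂ (BadFor w D fun _ _ _ Z => Transfers (fronts w) Z) ∧
      ((∀ i, EvenFront (w i)) → SparseNear C f c c₂ (BadFor w D fun _ _ _ Z => ∀ m, 1 ≤ m → Z [2 * m] = 0))) ∧
    (∀ (A : Type) [CommRing A] [IsDomain A] [Algebra ℚ A] (Z : List ℕ → A), HasStuffle Z →
      (∃ s₀, ∀ s, s₀ ≤ s → Odd s → Z [s] ≠ 0) →
      (Transfers Set.univ Z ↔ AllFunctions Z) ∧ (AllFunctions Z ↔ SomeScales Z)) ∧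
    LM Nat.totient ∧ LM (fun m => ∑ d ∈ m.divisors, d) := by
  refine ⟨fun r w hw D C f hf c c₂ hc hc₂ hcc => ⟨?_, fun he => ?_⟩, ?_, lm_totient, lm_sigma⟩
  · exact sparse_of_few C hf hc hc₂ hcc (fun H H' s => badFor_mono w D _ H H' s) (part1 w hw D 2)
  · exact sparse_of_few C hf hc hc₂ hcc (fun H H' s => badFor_mono w D _ H H' s) (part2 w hw he D 2)
  · intro A _ _ _ Z hZ hs
    obtain ⟨s₀, hne⟩ := hs
    have hback : SomeScales Z → Transfers Set.univ Z := fun h => c_to_a Z hZ s₀ hne (large_of_some Z h)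
    exact ⟨⟨all_of_transfers Z hZ, fun h => hback (some_of_all Z h)⟩,
      ⟨some_of_all Z, fun h => all_of_transfers Z hZ (hback h)⟩⟩

end Pool.Agent.Results.MP_03df5c_nt.LargestFibres
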