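import Pool.Agent.D0H63.MR.All
import Pool.Agent.Results.MP_03df5c_nt.AlongRealTuples

/-!
# MP_03df5c_nt: relations between multiple zeta values whose arguments are the numerators and the denominators of the good
rational approximations of a real vector

A pattern in `k` variables is a nonempty list of letters `b + u_1 s_1 + ... + u_k s_k`; at a tuple `s` of natural numbers
it gives an index. The first letters may be constant. A family `Z` is a function from the indices to a commutative
`ℚ`-algebra with the stuffle product, for example the `p`-adic multiple zeta values for a prime `p`. The tuple `s` is bad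
for `Z` (and `D`, `H`) if a polynomial relation of degree at most `D` with integer coefficients at most `H` between the real
multiple zeta values of the patterns at `s` fails for `Z`.

Let `k ≥ 1` and `τ > 0`. A real vector `ξ = (ξ_1, ..., ξ_k)` is good if for ALL patterns `w_1, ..., w_r` in `k + 1` variables
and ALL `D`, `C`, for all large `q`, NO tuple `(q, p_1, ..., p_k)` of natural numbers with `|ξ_j - p_j / q| ≤ q ^ (-τ)` is bad
for `D` and `H = C ^ q`. For `k = 1`, `τ = 2` these are the pairs of the denominators and the numerators of the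
convergents of the continued fraction of `ξ`, among others.

Theorem. (1) All `ξ` with positive coordinates but a set of Hausdorff dimension at most `k / τ` (for `τ > 1` almost all `ξ`)
are good, for all families `Z` at once for which all the relations between the real multiple zeta values of the (finitely
many) constant fronts of the patterns hold; if the fronts are even (`2a, ..., 2a`, or empty), for all families with
`Z(2 m) = 0`, `m ≥ 1`, unconditionally: for all primes `p` at once.

(2) Conversely, let `Z` be a family in a domain, with `Z(s) ≠ 0` for all large odd `s` (this holds for the `p`-adic multiple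
zeta values). Then the following are equivalent: (a) all polynomial relations between real multiple zeta values hold for `Z`
(the question for `p`); (b) for all `k ≥ 1`, `τ > 0` all `ξ` but a set of dimension at most `k / τ` (almost all, for `τ > 1`)
are good for `Z`; (c) for all patterns in one variable with exactly one letter which is not constant, `s + b`, and all `C`
there is ONE irrational number `ξ > 0` such that for all large `q` and all `p` coprime to `q` with `|ξ - p / q| < 1 / q ^ 2`
(all the large convergents of `ξ` are such `p / q`) neither `q` nor `p` is bad for `Z`, degree one and height `C ^ q`.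

`AlmostAllArguments` (starting file, helper734) bounds the number of the bad tuples in `[N, κ N] ^ k` by `K N ^ (k - 1)`,
`AlongRealTuples` (starting file) treats the integer points near `N ξ` for `N` in a sparse set, where `N` is not one of the
arguments. Here the denominator is one of the arguments, all large `q` are allowed, and the exceptional set is the same for
all patterns, degrees and constants `C`.
-/

set_option autoImplicit false

open Set Filter MeasureTheory
open scoped ENNReal

namespace Pool.Agent.Results.MP_03df5c_nt.RationalApproximations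

open AlmostAllArguments (mzv Letter index AdmissiblePattern fronts EvenFront OneLarge HasStuffle Transfers Bad BadFor Few
  part1 part2 c_to_a OneLargeArgument)

/-- For all admissible patterns `w` in `k + 1` variables, all `D` and all `C`: for all large `q` the property
`E r w D (C ^ q)` fails for ALL tuples `(q, p_1, ..., p_k)` of natural numbers with `|ξ_j - p_j / q| ≤ q ^ (-τ)`. -/
def Good {k : ℕ} (τ : ℝ) (E : ∀ r : ℕ, (Fin r → List (Letter (k + 1))) → ℕ → ℝ → (Fin (k + 1) → ℕ) → Prop)
    (ξ : Fin k → ℝ) : Prop :=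
  ∀ (r : ℕ) (w : Fin r → List (Letter (k + 1))), (∀ i, AdmissiblePattern (w i)) → ∀ (D : ℕ) (C : ℝ),
    ∀ᶠ q : ℕ in atTop, ∀ s : Fin (k + 1) → ℕ, s 0 = q → (∀ j : Fin k, |ξ j - s j.succ / q| ≤ (q : ℝ) ^ (-τ)) →
      ¬ E r w D (C ^ q) s

/-- `Good τ E` holds for all real vectors with positive coordinates but a set of Hausdorff dimension at most `k / τ`, and for
almost all of them if `τ > 1` -/
def Metric {k : ℕ} (E : ∀ r : ℕ, (Fin r → List (Letter (k + 1))) → ℕ → ℝ → (Fin (k + 1) → ℕ) → Prop) : Prop :=
  ∀ τ : ℝ, 0 < τ → dimH {ξ : Fin k → ℝ | (∀ j, 0 < ξ j) ∧ ¬ Good τ E ξ} ≤ ENNReal.ofReal (k / τ) ∧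
    (1 < τ → ∀ᵐ ξ : Fin k → ℝ, (∀ j, 0 < ξ j) → Good τ E ξ)

/-- statement (b): the good approximations of almost all real vectors are not bad for `Z` -/
def AllVectors {A : Type} [CommRing A] (Z : List ℕ → A) : Prop :=
  ∀ k : ℕ, 1 ≤ k → Metric (k := k) fun _ w D H s => Bad w D H Z s

/-- statement (c): for all patterns in one variable with exactly one letter which is not constant, `s + b`, and all `C` there
is an irrational number `ξ > 0` such that for all large `q` and all `p` coprime to `q` with `|ξ - p / q| < 1 / q ^ 2` neither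
`q` nor `p` is bad for `Z`, degree one and height `C ^ q` -/
def OneNumber {A : Type} [CommRing A] (Z : List ℕ → A) : Prop :=
  ∀ (r : ℕ) (w : Fin r → List (Letter 1)), (∀ i, AdmissiblePattern (w i) ∧ OneLarge (w i)) → ∀ C : ℝ,
    ∃ ξ : ℝ, Irrational ξ ∧ 0 < ξ ∧ ∀ᶠ q : ℕ in atTop, ∀ p : ℕ, p.Coprime q → |ξ - p / q| < 1 / (q : ℝ) ^ 2 →
      ¬ Bad w 1 (C ^ q) Z (fun _ => q) ∧ ¬ Bad w 1 (C ^ q) Z (fun _ => p)

lemma metric_of_few {k : ℕ} (hk : 1 ≤ k)
    {E : ∀ r : ℕ, (Fin r → List (Letter (k + 1))) → ℕ → ℝ → (Fin (k + 1) → ℕ) → Prop}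
    (hE : ∀ r w D H H' s, H ≤ H' → E r w D H s → E r w D H' s)
    (h : ∀ (r : ℕ) (w : Fin r → List (Letter (k + 1))), (∀ i, AdmissiblePattern (w i)) → ∀ D κ : ℕ, Few κ (E r w D)) :
    Metric E := by
  intro τ hτ
  have h1 := Pool.Agent.D0H63.MR.of_few_all (k := k)
    (ι := (Σ r : ℕ, {w : Fin r → List (Letter (k + 1)) // ∀ i, AdmissiblePattern (w i)}) × ℕ)
    (E := fun i => E i.1.1 i.1.2.1 i.2) (fun i H H' s => hE _ _ _ H H' s)
    (fun i κ => h _ _ i.1.2.2 _ κ) τ hτ
  refine ⟨le_trans (dimH_mono ?_) h1.1, fun hτ1 => ?_⟩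
  · rintro ξ ⟨h2, h3⟩
    exact ⟨h2, fun h4 => h3 fun r w hw D C => h4 (⟨r, w, hw⟩, D) C⟩
  · filter_upwards [h1.2 hk hτ1] with ξ hξ hpos r w hw D C
    exact hξ hpos (⟨r, w, hw⟩, D) C

lemma all_of_transfers {A : Type} [CommRing A] [Algebra ℚ A] (Z : List ℕ → A) (hZ : HasStuffle Z)
    (h : Transfers Set.univ Z) : AllVectors Z := fun _ hk =>
  metric_of_few hk (fun _ w D H H' s => AlongRealTuples.bad_mono w D Z H H' s)
    (fun r w hw D κ => AlmostAllArguments.a_to_b Z hZ h _ r w hw D κ)

/-- a pattern in one variable as a pattern in the variable `i` -/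
def lift (i : Fin 2) (w : List (Letter 1)) : List (Letter 2) := w.map fun u => (u.1, Pi.single i (u.2 0))

lemma index_lift (i : Fin 2) (s : Fin 2 → ℕ) (w : List (Letter 1)) : index s (lift i w) = index (fun _ => s i) w := by
  unfold index lift
  rw [List.map_map]
  refine List.map_congr_left fun u _ => ?_
  have h1 : ∑ j : Fin 2, (Pi.single i (u.2 0) : Fin 2 → ℕ) j * s j = u.2 0 * s i := by
    rw [Finset.sum_eq_single i]
    · rw [Pi.single_eq_same]
    · intro j _ hj
      rw [Pi.single_eq_of_ne hj, Nat.zero_mul]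
    · exact fun h => absurd (Finset.mem_univ i) h
  have h2 : ∑ j : Fin 1, u.2 j * s i = u.2 0 * s i := by simp
  change u.1 + ∑ j : Fin 2, (Pi.single i (u.2 0) : Fin 2 → ℕ) j * s j = u.1 + ∑ j : Fin 1, u.2 j * s i
  rw [h1, h2]

lemma single_ne {i : Fin 2} {u : Letter 1} (hu : u.2 ≠ 0) : (Pi.single i (u.2 0) : Fin 2 → ℕ) ≠ 0 := by
  intro h
  refine hu (funext fun j => ?_)
  have h1 := congrFun h i
  rw [Pi.single_eq_same] at h1
  rw [Subsingleton.elim j 0, h1]
  rfl

lemma admissible_lift (i : Fin 2) {w : List (Letter 1)} (hw : AdmissiblePattern w) : AdmissiblePattern (lift i w) := by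
  obtain ⟨h1, h2, h3⟩ := hw
  refine ⟨?_, ?_, ?_⟩
  · unfold lift
    rw [Ne, List.map_eq_nil_iff]
    exact h1
  · intro u hu
    unfold lift at hu
    rw [List.head?_map, Option.mem_map] at hu
    obtain ⟨v, hv, rfl⟩ := hu
    exact (h2 v hv).imp single_ne id
  · intro u hu
    unfold lift at hu
    rw [List.mem_map] at hu
    obtain ⟨v, hv, rfl⟩ := hu
    exact (h3 v hv).imp single_ne id

lemma bad_lift {A : Type} [CommRing A] (Z : List ℕ → A) {r : ℕ} (w : Fin r → List (Letter 1)) (i : Fin 2) (D : ℕ) (H : ℝ)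
    (s : Fin 2 → ℕ) (h : Bad w D H Z (fun _ => s i)) : Bad (fun j => lift i (w j)) D H Z s := by
  obtain ⟨P, h1, h2, h3, h4⟩ := h
  refine ⟨P, h1, h2, ?_, ?_⟩
  · simpa only [index_lift] using h3
  · simpa only [index_lift] using h4

lemma one_of_all {A : Type} [CommRing A] (Z : List ℕ → A) (h : AllVectors Z) : OneNumber Z := by
  intro r w hw C
  have h1 := (h 1 le_rfl (3 / 2) (by norm_num)).2 (by norm_num)
  obtain ⟨ξ, h4, h5, h6⟩ := (Pool.Agent.D0H63.MR.frequently_pos.and_eventually
    (Pool.Agent.D0H63.MR.ae_irrational.and h1)).exists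
  refine ⟨ξ 0, h5, h4 0, ?_⟩
  have h7 := h6 h4 r (fun j => lift 0 (w j)) (fun j => admissible_lift 0 (hw j).1) 1 C
  have h8 := h6 h4 r (fun j => lift 1 (w j)) (fun j => admissible_lift 1 (hw j).1) 1 C
  filter_upwards [h7, h8, eventually_ge_atTop 1] with q hq1 hq2 hq p _ hpq
  have h9 : ∀ j : Fin 1, |ξ j - ((![q, p] : Fin 2 → ℕ) j.succ : ℕ) / (q : ℝ)| ≤ (q : ℝ) ^ (-(3 / 2 : ℝ)) := by
    intro j
    rw [Subsingleton.elim j 0]
    exact (hpq.le).trans (Pool.Agent.D0H63.MR.rpow_of_sq hq)
  exact ⟨fun hb => hq1 ![q, p] rfl h9 (bad_lift Z w 0 1 _ ![q, p] hb),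
    fun hb => hq2 ![q, p] rfl h9 (bad_lift Z w 1 1 _ ![q, p] hb)⟩

lemma large_of_one {A : Type} [CommRing A] (Z : List ℕ → A) (h : OneNumber Z) : OneLargeArgument Z := by
  intro r w hw B s₁
  obtain ⟨ξ, hξ, h0, h1⟩ := h r w hw (B + 1 : ℝ)
  obtain ⟨N₀, hN₀⟩ := eventually_atTop.1 h1
  obtain ⟨p, q, h2, h3, h4, h5, h6, h7⟩ := Pool.Agent.D0H63.MR.exists_odd hξ h0 (N₀ + s₁)
  obtain ⟨h8, h9⟩ := hN₀ q (by omega) p h5 h6
  have hB : (B : ℝ) ≤ (B + 1 : ℝ) ^ q := by
    have h3 : (B + 1 : ℝ) ^ 1 ≤ (B + 1 : ℝ) ^ q :=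
      pow_le_pow_right₀ (by have := Nat.cast_nonneg (α := ℝ) B; linarith) (by omega)
    rw [pow_one] at h3
    linarith
  rcases h7 with hodd | hodd
  · refine ⟨q, by omega, hodd, fun a ha hR => ?_⟩
    by_contra hA
    exact h8 (AlongRealTuples.bad_of_linear w Z (fun _ => q) B _ hB a ha hR hA)
  · refine ⟨p, by omega, hodd, fun a ha hR => ?_⟩
    by_contra hA
    exact h9 (AlongRealTuples.bad_of_linear w Z (fun _ => p) B _ hB a ha hR hA)

/-- **Theorem.** (1) Let `k ≥ 1` and `τ > 0`. For all real vectors `ξ = (ξ_1, ..., ξ_k)` with positive coordinates but a set of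
Hausdorff dimension at most `k / τ` (and for almost all of them if `τ > 1`): for all admissible patterns `w_1, ..., w_r` in
`k + 1` variables, all `D` and `C`, for all large `q`, no tuple `(q, p_1, ..., p_k)` with `|ξ_j - p_j / q| ≤ q ^ (-τ)` is bad,
for the degree `D` and the height `C ^ q`, for a family `Z` with the stuffle product for which the relations between the real
multiple zeta values of the fronts hold; the same if the fronts are even, for the families with `Z(2 m) = 0` for all `m ≥ 1`.
(2) For a family `Z` with the stuffle product in a domain, with `Z(s) ≠ 0` for all large odd `s`, the following are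
equivalent: all polynomial relations between real multiple zeta values hold for `Z`; `AllVectors Z`; `OneNumber Z`. -/
theorem result :
    (∀ k : ℕ, 1 ≤ k →
      Metric (k := k) (fun _ w D => BadFor w D fun _ _ _ Z => Transfers (fronts w) Z) ∧
      Metric (k := k) (fun _ w D H s => (∀ i, EvenFront (w i)) ∧
        BadFor w D (fun _ _ _ Z => ∀ m, 1 ≤ m → Z [2 * m] = 0) H s)) ∧
    ∀ (A : Type) [CommRing A] [IsDomain A] [Algebra ℚ A] (Z : List ℕ → A), HasStuffle Z →
      (∃ s₀, ∀ s, s₀ ≤ s → Odd s → Z [s] ≠ 0) →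
      (Transfers Set.univ Z ↔ AllVectors Z) ∧ (AllVectors Z ↔ OneNumber Z) := by
  refine ⟨fun k hk => ⟨?_, ?_⟩, ?_⟩
  · exact metric_of_few hk (fun _ w D H H' s => AlongRealTuples.badFor_mono w D _ H H' s)
      (fun _ w hw D κ => part1 w hw D κ)
  · refine metric_of_few hk (fun _ w D H H' s hH hb => ⟨hb.1, AlongRealTuples.badFor_mono w D _ H H' s hH hb.2⟩)
      (fun r w hw D κ => ?_)
    by_cases he : ∀ i, EvenFront (w i)
    · exact (part2 w hw he D κ).mono fun H s hb => hb.2
    · refine ⟨0, fun C => ⟨0, fun N _ => ?_⟩⟩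
      have hempty : {s : Fin (k + 1) → ℕ | (∀ j, N ≤ s j ∧ s j ≤ κ * N) ∧ (∀ i, EvenFront (w i)) ∧
          BadFor w D (fun _ _ _ Z => ∀ m, 1 ≤ m → Z [2 * m] = 0) (C ^ N) s} = ∅ := by
        ext s
        simp only [Set.mem_setOf_eq, Set.mem_empty_iff_false, iff_false]
        exact fun hs => he hs.2.1
      rw [hempty, Set.ncard_empty]
      exact Nat.zero_le _
  · intro A _ _ _ Z hZ hs
    obtain ⟨s₀, hne⟩ := hs
    have hback : OneNumber Z → Transfers Set.univ Z := fun h => c_to_a Z hZ s₀ hne (large_of_one Z h)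
    exact ⟨⟨all_of_transfers Z hZ, fun h => hback (one_of_all Z h)⟩,
      ⟨one_of_all Z, fun h => all_of_transfers Z hZ (hback h)⟩⟩

end Pool.Agent.Results.MP_03df5c_nt.RationalApproximations
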