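import Mathlib
import Pool.Agent.D0H51.AP.Poly

/-!
# MP_03df5c_nt: relations between linearly many real multiple zeta values hold `p`-adically

A word is a nonempty list of letters `(a, v)`, pairs of integers; its index at `i` has the arguments `a + i v`, as in
`ζ(p + i, q - i)`, `ζ(p + i, t, q + 2 i)`. Let `w_1, ..., w_k` be words of depth at most `d`. We consider relations
`∑_{0 ≤ i ≤ W} f_i(ζ(w_1(i)), ..., ζ(w_k(i))) = 0` with ARBITRARY polynomials `f_0, ..., f_W` with integer coefficients, of
degree at most `D` and with coefficients at most `B`. So these are polynomial relations between `k (W + 1)` multiple zeta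
values.

Theorem. There are `δ > 0`, `C` and `P` (for given `k`, `d`, `D`, `B`, `κ`) such that for all `N ≥ P`, `W ≤ δ N`, and all words
whose arguments are in `[N, κ N]` and change by at most `δ N` for `0 ≤ i ≤ W`: if the sum vanishes, or if its absolute value is
at most `C ^ (-N)`, then the relation holds in every commutative ring for every family `Z` with the stuffle product, for
example for the `p`-adic multiple zeta values, for all primes `p` at once.

For example, for all windows `p_0 ≤ p ≤ p_0 + δ k` and their mirror images: all relations of weight `k` with coefficients at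
most `B` between the numbers `ζ(p, k - p)`, `ζ(k - p, p)`, `ζ(p) ζ(k - p)` and `ζ(k)`; all relations between linearly many zeta
values `ζ(s)`, `s_0 ≤ s ≤ s_0 + δ N`, whose coefficients are polynomials of bounded degree and height in fixed multiple zeta
values with arguments in `[N, κ N]`.

In the starting file `AllIndices` the number of the indices is bounded (with coefficients `C ^ N`), in `GrowingFamilies` it is
a small power of `N` and the arguments are near multiples of `N`. Here it grows linearly with the weight, there is no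
condition on the position of the arguments. For coefficients of size `C ^ N` there are nontrivial combinations of
linearly many values smaller than `c ^ (-N)`, for every `c`, by the pigeonhole principle.

Proof. The stuffle product gives a combination of multiple zeta values of boundedly many progressions of indices, with bounded
coefficients. Consider an index (over tuples with entries `≥ 2`) of minimal weight, up to `o(N)`, with a nonzero coefficient.
The S-units of the tuples `x_1 > ... > x_r` of primes for this index are not equivalent to those of other tuples and indices of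
at least this weight. For a suitable such tuple the sum of the terms of the nearby indices does not vanish: each progression is
dominated by one of its ends, and for logarithms of primes from a separated grid different ends have different sizes. So the
p-adic subspace theorem (starting library) gives the lower bound `C ^ (-N)`.
-/

set_option autoImplicit false

namespace Pool.Agent.Results.MP_03df5c_nt.SumsAlongProgressions

open Finset

/-- `trunc [s_1, ..., s_r] m` is the sum of `∏ n_i ^ (-s_i)` over `m > n_1 > ... > n_r ≥ 1` -/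
noncomputable def trunc : List ℕ → ℕ → ℝ
  | [], _ => 1
  | s :: l, m => ∑ j ∈ Finset.Ico 1 m, trunc l j / (j : ℝ) ^ s

/-- the multiple zeta value `ζ(s_1, ..., s_r)`, `s_1` belongs to the largest variable -/
noncomputable def mzv : List ℕ → ℝ
  | [] => 1
  | s :: l => ∑' m : ℕ, trunc l (m + 1) / ((m + 1 : ℕ) : ℝ) ^ s

/-- admissible indices: `(s_1, ..., s_r)` with `r ≥ 1`, `s_1 ≥ 2` and all `s_i ≥ 1` -/
def AdmissibleIndex : List ℕ → Prop
  | [] => False
  | s :: l => 2 ≤ s ∧ ∀ t ∈ l, 1 ≤ t

/-- the list of the indices in the stuffle (series) product of two indices -/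
def stuffles : List ℕ → List ℕ → List (List ℕ)
  | [], v => [v]
  | x :: u, [] => [x :: u]
  | x :: u, y :: v =>
    (stuffles u (y :: v)).map (x :: ·) ++ (stuffles (x :: u) v).map (y :: ·) ++
      (stuffles u v).map ((x + y) :: ·)
termination_by k l => k.length + l.length

/-- `Z` has the stuffle product: `Z(u) Z(v) = ∑ Z(w)` over the indices `w` of the stuffle product of `u` and `v`, for all
admissible indices `u` and `v` -/
def HasStuffleProduct {A : Type} [CommRing A] (Z : List ℕ → A) : Prop :=
  ∀ u v : List ℕ, AdmissibleIndex u → AdmissibleIndex v → Z u * Z v = ((stuffles u v).map Z).sum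

/-- words: the letter `(a, v)` stands for the argument `a + i v` -/
abbrev Word : Type := List (ℤ × ℤ)

/-- the index with the arguments `a + i v` -/
def index (i : ℕ) (w : Word) : List ℕ := w.map fun y => (y.1 + (i : ℤ) * y.2).toNat

theorem trunc_eq : ∀ l m, trunc l m = Pool.Agent.D0H51.AP.trunc l m := by
  intro l
  induction l with
  | nil => intro m; rw [trunc, Pool.Agent.D0H51.AP.trunc]
  | cons s l ih =>
    intro m
    rw [trunc, Pool.Agent.D0H51.AP.trunc]
    exact Finset.sum_congr rfl fun j _ => by rw [ih]

theorem mzv_eq : ∀ l, mzv l = Pool.Agent.D0H51.AP.mzv l := by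
  intro l
  cases l with
  | nil => rw [mzv, Pool.Agent.D0H51.AP.mzv]
  | cons s l =>
    rw [mzv, Pool.Agent.D0H51.AP.mzv]
    exact tsum_congr fun k => by rw [trunc_eq]

theorem stuffles_eq : ∀ u v, stuffles u v = Pool.Agent.D0H51.AP.stg u v := by
  intro u v
  induction u, v using stuffles.induct with
  | case1 v => rw [stuffles, Pool.Agent.D0H51.AP.stg]
  | case2 x u => rw [stuffles, Pool.Agent.D0H51.AP.stg]
  | case3 x u y v ih1 ih2 ih3 => rw [stuffles, Pool.Agent.D0H51.AP.stg, ih1, ih2, ih3]

theorem adm_of {u : List ℕ} (h : Pool.Agent.D0H51.AP.Ge2 u) : AdmissibleIndex u := by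
  cases u with
  | nil => exact absurd rfl h.1
  | cons x u =>
    exact ⟨h.2 x List.mem_cons_self, fun y hy => by
      have := h.2 y (List.mem_cons_of_mem _ hy)
      omega⟩

/-- Let `k`, `d`, `D`, `B`, `κ` be natural numbers. There are `δ > 0` and natural numbers `C ≥ 1`, `P` such that for all
`N ≥ P`, all `W ≤ δ N`, all words `w_1, ..., w_k` of depth between `1` and `d` with arguments `a + i v ∈ [N, κ N]` for
`0 ≤ i ≤ W` and `W |v| ≤ δ N`, and all integer polynomials `f_0, ..., f_W` in `k` variables of degree at most `D` with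
coefficients of absolute value at most `B`: if `|∑_i f_i(ζ(w_1(i)), ..., ζ(w_k(i)))| ≤ C ^ (-N)` then the sum is zero, and
`∑_i f_i(Z(w_1(i)), ..., Z(w_k(i))) = 0` for all commutative rings `A` and all functions `Z` from the indices to `A` with the
stuffle product. -/
theorem result (k d D B κ : ℕ) : ∃ (δ : ℝ) (C P : ℕ), 0 < δ ∧ 0 < C ∧
    ∀ (N W : ℕ) (w : Fin k → Word) (f : ℕ → MvPolynomial (Fin k) ℤ), P ≤ N → (W : ℝ) ≤ δ * N →
      (∀ l, w l ≠ [] ∧ (w l).length ≤ d) →
      (∀ l, ∀ y ∈ w l, (∀ i ≤ W, (N : ℤ) ≤ y.1 + i * y.2 ∧ y.1 + i * y.2 ≤ κ * N) ∧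
        (W : ℝ) * |(y.2 : ℝ)| ≤ δ * N) →
      (∀ i ≤ W, (f i).totalDegree ≤ D ∧ ∀ e, |(f i).coeff e| ≤ (B : ℤ)) →
      |∑ i ∈ range (W + 1), MvPolynomial.aeval (fun l => mzv (index i (w l))) (f i)| ≤
        1 / (C : ℝ) ^ N →
      ∑ i ∈ range (W + 1), MvPolynomial.aeval (fun l => mzv (index i (w l))) (f i) = 0 ∧
        ∀ (A : Type) [CommRing A] (Z : List ℕ → A), HasStuffleProduct Z →
          ∑ i ∈ range (W + 1), MvPolynomial.aeval (fun l => Z (index i (w l))) (f i) = 0 := by
  obtain ⟨δ, C, P, hδ, hC, h⟩ := Pool.Agent.D0H51.AP.poly k d D B κ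
  refine ⟨δ, C, P, hδ, hC, fun N W w f hPN hW hw hent hf hsmall => ?_⟩
  have hmz : mzv = Pool.Agent.D0H51.AP.mzv := funext mzv_eq
  -- the words of functions
  set w' : Fin k → List (ℕ → ℕ) := fun l => (w l).map fun (y : ℤ × ℤ) (i : ℕ) => (y.1 + (i : ℤ) * y.2).toNat with hw'
  have hidx : ∀ (i : ℕ) l, ((w' l).map fun x => x i) = index i (w l) := by
    intro i l
    rw [hw', index, List.map_map]
    rfl
  have hmem : ∀ l, ∀ x ∈ w' l, ∃ y ∈ w l, ∀ i, x i = (y.1 + i * y.2).toNat := by
    intro l x hx
    rw [hw', List.mem_map] at hx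
    obtain ⟨y, hy, rfl⟩ := hx
    exact ⟨y, hy, fun i => rfl⟩
  have hval : ∀ l, ∀ y ∈ w l, ∀ i ≤ W, (((y.1 + i * y.2).toNat : ℕ) : ℤ) = y.1 + i * y.2 := by
    intro l y hy i hi
    rw [Int.toNat_of_nonneg]
    have h1 := ((hent l y hy).1 i hi).1
    have h2 : (0 : ℤ) ≤ N := Int.natCast_nonneg _
    omega
  have key := h N W w' f hPN hW (fun l => by
      rw [hw', Ne, List.map_eq_nil_iff]
      exact (hw l).1) (fun l => by
      rw [hw', List.length_map]
      exact (hw l).2) (fun l x hx i hi => by
      obtain ⟨y, hy, hyx⟩ := hmem l x hx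
      have h1 := (hent l y hy).1 i hi
      have h2 := hval l y hy i hi
      rw [hyx]
      constructor
      · have h3 : (N : ℤ) ≤ (((y.1 + i * y.2).toNat : ℕ) : ℤ) := by rw [h2]; exact h1.1
        exact_mod_cast h3
      · have h3 : (((y.1 + i * y.2).toNat : ℕ) : ℤ) ≤ κ * N := by rw [h2]; exact h1.2
        exact_mod_cast h3) (fun l x hx => by
      obtain ⟨y, hy, hyx⟩ := hmem l x hx
      refine ⟨y.2, fun i hi => ?_⟩
      rw [hyx, hyx, hval l y hy i hi]
      have := hval l y hy 0 (Nat.zero_le _)
      rw [this]
      push_cast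
      ring) (fun l x hx i hi j hj => by
      obtain ⟨y, hy, hyx⟩ := hmem l x hx
      have h1 := (hent l y hy).2
      have h2 : (x i : ℝ) = y.1 + i * y.2 := by
        rw [hyx]
        exact_mod_cast hval l y hy i hi
      have h3 : (x j : ℝ) = y.1 + j * y.2 := by
        rw [hyx]
        exact_mod_cast hval l y hy j hj
      rw [h2, h3]
      have h4 : ((i : ℝ) - j) * y.2 ≤ W * |(y.2 : ℝ)| := by
        refine (le_abs_self _).trans ?_
        rw [abs_mul]
        apply mul_le_mul_of_nonneg_right _ (abs_nonneg _)
        rw [abs_le]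
        have e1 : (i : ℝ) ≤ W := by exact_mod_cast hi
        have e2 : (j : ℝ) ≤ W := by exact_mod_cast hj
        have e3 : (0 : ℝ) ≤ i := Nat.cast_nonneg _
        have e4 : (0 : ℝ) ≤ j := Nat.cast_nonneg _
        constructor <;> linarith
      linarith) (fun i hi => (hf i hi).1) (fun i hi => (hf i hi).2)
    (by
      simp only [hidx]
      rw [← hmz]
      exact hsmall)
  simp only [hidx] at key
  constructor
  · have h1 := key ℝ Pool.Agent.D0H51.AP.mzv Pool.Agent.D0H51.AP.mzv_mul
    rw [← hmz] at h1
    exact h1
  · intro A _ Z hZ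
    exact key A Z fun u v hu hv => by
      rw [hZ u v (adm_of hu) (adm_of hv), stuffles_eq]

end Pool.Agent.Results.MP_03df5c_nt.SumsAlongProgressions
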